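import Mathlib

namespace Pool.Agent.Results.MP_906af0_co.HyperbolicPlane

open Real

/-! ## Definitions -/

/-- The Lorentz form on `ℝ^(n+1)`. -/
noncomputable def lor {n : ℕ} (x y : Fin (n + 1) → ℝ) : ℝ :=
  -(x 0 * y 0) + ∑ i : Fin n, x i.succ * y i.succ

/-- Hyperbolic `n`-space: the upper sheet of the hyperboloid `lor x x = -1`. -/
def Hyp (n : ℕ) : Type := {x : Fin (n + 1) → ℝ // lor x x = -1 ∧ 0 < x 0}

/-- The hyperbolic distance. -/
noncomputable def hdist {n : ℕ} (P Q : Hyp n) : ℝ := arcosh (-(lor P.1 Q.1))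

/-- The unit tangent vector at `P` of the geodesic from `P` to `Q` (for `Q ≠ P`), as a vector of
`ℝ^(n+1)`. -/
noncomputable def dir {n : ℕ} (P Q : Hyp n) : Fin (n + 1) → ℝ :=
  fun i => (Q.1 i - cosh (hdist P Q) * P.1 i) / sinh (hdist P Q)

/-- Every bounded subset contains only finitely many points of `C`. -/
def IsDiscreteConf {n : ℕ} (C : Set (Hyp n)) : Prop :=
  ∀ (P : Hyp n) (r : ℝ), {Q | Q ∈ C ∧ hdist P Q ≤ r}.Finite

/-- Balanced configurations. -/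
def IsBalanced {n : ℕ} (C : Set (Hyp n)) : Prop :=
  ∀ P ∈ C, ∀ d : ℝ, 0 < d → ∑ᶠ Q ∈ {Q | Q ∈ C ∧ hdist P Q = d}, dir P Q = 0

/-- Symmetries of `C`: isometries of hyperbolic space that map `C` onto itself. -/
def IsSymmetry {n : ℕ} (C : Set (Hyp n)) (g : Hyp n ≃ Hyp n) : Prop :=
  (∀ P Q, hdist (g P) (g Q) = hdist P Q) ∧ g '' C = C

/-- Group-balanced configurations. -/
def IsGroupBalanced {n : ℕ} (C : Set (Hyp n)) : Prop :=
  ∀ P ∈ C, ∃ g : Hyp n ≃ Hyp n, IsSymmetry C g ∧ {Q | g Q = Q} = {P}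

/-! ## The hyperbolic plane -/

theorem lor2 (x y : Fin 3 → ℝ) : lor x y = -(x 0 * y 0) + (x 1 * y 1 + x 2 * y 2) := by
  unfold lor
  rw [Fin.sum_univ_two]
  rfl

theorem lor_comm (x y : Fin 3 → ℝ) : lor x y = lor y x := by
  rw [lor2, lor2]; ring

theorem nrmP (P : Hyp 2) : -(P.1 0 * P.1 0) + (P.1 1 * P.1 1 + P.1 2 * P.1 2) = -1 := by
  have := P.2.1
  rw [lor2] at this
  exact this

theorem one_le (P Q : Hyp 2) : 1 ≤ -(lor P.1 Q.1) := by
  rw [lor2]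
  have h1 := nrmP P
  have h2 := nrmP Q
  have h3 := P.2.2
  have h4 := Q.2.2
  generalize P.1 0 = p0 at *
  generalize P.1 1 = p1 at *
  generalize P.1 2 = p2 at *
  generalize Q.1 0 = q0 at *
  generalize Q.1 1 = q1 at *
  generalize Q.1 2 = q2 at *
  have h5 : (1 + (p1 * q1 + p2 * q2)) ^ 2 ≤ (p0 * q0) ^ 2 := by
    have e1 : p0 ^ 2 = 1 + (p1 ^ 2 + p2 ^ 2) := by linarith
    have e2 : q0 ^ 2 = 1 + (q1 ^ 2 + q2 ^ 2) := by linarith
    rw [mul_pow, e1, e2]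
    nlinarith [sq_nonneg (p1 * q2 - p2 * q1), sq_nonneg (p1 - q1), sq_nonneg (p2 - q2)]
  have h6 := abs_le_of_sq_le_sq' h5 (by positivity)
  linarith [h6.2]

theorem cosh_hdist (P Q : Hyp 2) : cosh (hdist P Q) = -(lor P.1 Q.1) :=
  cosh_arcosh (one_le P Q)

theorem hdist_eq {P Q P' Q' : Hyp 2} (h : hdist P Q = hdist P' Q') :
    lor P.1 Q.1 = lor P'.1 Q'.1 := by
  have h1 := cosh_hdist P Q
  rw [h, cosh_hdist] at h1
  linarith

theorem hdist_congr {P Q P' Q' : Hyp 2} (h : lor P.1 Q.1 = lor P'.1 Q'.1) :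
    hdist P Q = hdist P' Q' := by
  unfold hdist
  rw [h]

theorem sheet (P : Hyp 2) (w : Fin 3 → ℝ) (hw : lor w w = -1) (h : lor P.1 w < 0) : 0 < w 0 := by
  rw [lor2] at hw h
  have h1 := nrmP P
  have h3 := P.2.2
  generalize P.1 0 = p0 at *
  generalize P.1 1 = p1 at *
  generalize P.1 2 = p2 at *
  generalize w 0 = q0 at *
  generalize w 1 = q1 at *
  generalize w 2 = q2 at *
  by_contra hq
  have hq' : q0 ≤ 0 := not_lt.mp hq
  have h5 : p1 * q1 + p2 * q2 < p0 * q0 := by linarith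
  have h6 : p0 * q0 ≤ 0 := mul_nonpos_of_nonneg_of_nonpos h3.le hq'
  have h7 : (p0 * q0) ^ 2 < (p1 * q1 + p2 * q2) ^ 2 := by nlinarith
  have e1 : p0 ^ 2 = 1 + (p1 ^ 2 + p2 ^ 2) := by linarith
  have e2 : q0 ^ 2 = 1 + (q1 ^ 2 + q2 ^ 2) := by linarith
  rw [mul_pow, e1, e2] at h7
  nlinarith [sq_nonneg (p1 * q2 - p2 * q1), sq_nonneg p1, sq_nonneg p2, sq_nonneg q1,
    sq_nonneg q2]

/-- the point reflection in `P` -/
noncomputable def sig (P Q : Hyp 2) : Hyp 2 :=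
  ⟨fun i => -(Q.1 i) - 2 * lor P.1 Q.1 * P.1 i, by
    have h1 := nrmP P
    have h2 := nrmP Q
    have h3 : lor (fun i => -(Q.1 i) - 2 * lor P.1 Q.1 * P.1 i)
        (fun i => -(Q.1 i) - 2 * lor P.1 Q.1 * P.1 i) = -1 := by
      rw [lor2, lor2]
      linear_combination h2 +
        4 * (-(P.1 0 * Q.1 0) + (P.1 1 * Q.1 1 + P.1 2 * Q.1 2)) ^ 2 * h1
    have h4 : lor P.1 (fun i => -(Q.1 i) - 2 * lor P.1 Q.1 * P.1 i) < 0 := by
      have h5 : lor P.1 (fun i => -(Q.1 i) - 2 * lor P.1 Q.1 * P.1 i) = lor P.1 Q.1 := by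
        rw [lor2, lor2]
        linear_combination (-2) * (-(P.1 0 * Q.1 0) + (P.1 1 * Q.1 1 + P.1 2 * Q.1 2)) * h1
      rw [h5]
      linarith [one_le P Q]
    exact ⟨h3, sheet P _ h3 h4⟩⟩

theorem lor_sig (P Q : Hyp 2) : lor P.1 (sig P Q).1 = lor P.1 Q.1 := by
  have h1 := nrmP P
  show lor P.1 (fun i => -(Q.1 i) - 2 * lor P.1 Q.1 * P.1 i) = lor P.1 Q.1
  rw [lor2, lor2]
  linear_combination (-2) * (-(P.1 0 * Q.1 0) + (P.1 1 * Q.1 1 + P.1 2 * Q.1 2)) * h1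

theorem sig_sig (P Q : Hyp 2) : sig P (sig P Q) = Q := by
  apply Subtype.ext
  funext i
  show -((sig P Q).1 i) - 2 * lor P.1 (sig P Q).1 * P.1 i = Q.1 i
  rw [lor_sig]
  show -(-(Q.1 i) - 2 * lor P.1 Q.1 * P.1 i) - 2 * lor P.1 Q.1 * P.1 i = Q.1 i
  ring

theorem dir_sig (P Q : Hyp 2) : dir P (sig P Q) = -dir P Q := by
  funext i
  have h1 : hdist P (sig P Q) = hdist P Q := hdist_congr (lor_sig P Q)
  show ((sig P Q).1 i - cosh (hdist P (sig P Q)) * P.1 i) / sinh (hdist P (sig P Q)) =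
    -((Q.1 i - cosh (hdist P Q) * P.1 i) / sinh (hdist P Q))
  rw [h1, cosh_hdist, ← neg_div]
  congr 1
  show (-(Q.1 i) - 2 * lor P.1 Q.1 * P.1 i) - -(lor P.1 Q.1) * P.1 i =
    -(Q.1 i - -(lor P.1 Q.1) * P.1 i)
  ring

/-- the rotation by a third of a full turn about `P`, as a vector -/
noncomputable def rotv (p q : Fin 3 → ℝ) : Fin 3 → ℝ :=
  ![(-(q 0) - 3 * lor p q * p 0 + √3 * (-(p 1 * q 2 - p 2 * q 1))) / 2,
    (-(q 1) - 3 * lor p q * p 1 + √3 * (p 2 * q 0 - p 0 * q 2)) / 2,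
    (-(q 2) - 3 * lor p q * p 2 + √3 * (p 0 * q 1 - p 1 * q 0)) / 2]

theorem s3 : √3 * √3 = (3 : ℝ) := Real.mul_self_sqrt (by norm_num)

theorem lor_rotv (p q : Fin 3 → ℝ) (hp : -(p 0 * p 0) + (p 1 * p 1 + p 2 * p 2) = -1) :
    lor p (rotv p q) = lor p q := by
  rw [lor2 p (rotv p q)]
  simp only [rotv, Matrix.cons_val_zero, Matrix.cons_val_one, Matrix.cons_val]
  have e := lor2 p q
  rw [e]
  linear_combination (-3 / 2) * (-(p 0 * q 0) + (p 1 * q 1 + p 2 * q 2)) * hp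

theorem nrm_rotv (p q : Fin 3 → ℝ) (hp : -(p 0 * p 0) + (p 1 * p 1 + p 2 * p 2) = -1)
    (hq : -(q 0 * q 0) + (q 1 * q 1 + q 2 * q 2) = -1) : lor (rotv p q) (rotv p q) = -1 := by
  rw [lor2 (rotv p q)]
  simp only [rotv, Matrix.cons_val_zero, Matrix.cons_val_one, Matrix.cons_val]
  have e := lor2 p q
  rw [e]
  have hs := s3
  generalize √3 = s at *
  generalize p 0 = p0 at *
  generalize p 1 = p1 at *
  generalize p 2 = p2 at *
  generalize q 0 = q0 at *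
  generalize q 1 = q1 at *
  generalize q 2 = q2 at *
  linear_combination (1 / 4) * hq + (9 / 4) * (-(p0 * q0) + (p1 * q1 + p2 * q2)) ^ 2 * hp +
    (1 / 4) * (-(p1 * q2 - p2 * q1) ^ 2 + (p2 * q0 - p0 * q2) ^ 2 + (p0 * q1 - p1 * q0) ^ 2) * hs
    - (3 / 4) * (-(q0 * q0) + (q1 * q1 + q2 * q2)) * hp + (3 / 4) * hq

theorem sum_rotv (p q : Fin 3 → ℝ) (hp : -(p 0 * p 0) + (p 1 * p 1 + p 2 * p 2) = -1)
    (i : Fin 3) : q i + rotv p q i + rotv p (rotv p q) i = -(3 * lor p q * p i) := by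
  have h1 := lor_rotv p q hp
  have hs := s3
  have e := lor2 p q
  have e0 : rotv p q 0 =
    (-(q 0) - 3 * lor p q * p 0 + √3 * (-(p 1 * q 2 - p 2 * q 1))) / 2 := rfl
  have e1 : rotv p q 1 =
    (-(q 1) - 3 * lor p q * p 1 + √3 * (p 2 * q 0 - p 0 * q 2)) / 2 := rfl
  have e2 : rotv p q 2 =
    (-(q 2) - 3 * lor p q * p 2 + √3 * (p 0 * q 1 - p 1 * q 0)) / 2 := rfl
  have f0 : rotv p (rotv p q) 0 = (-(rotv p q 0) - 3 * lor p (rotv p q) * p 0 +
    √3 * (-(p 1 * rotv p q 2 - p 2 * rotv p q 1))) / 2 := rfl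
  have f1 : rotv p (rotv p q) 1 = (-(rotv p q 1) - 3 * lor p (rotv p q) * p 1 +
    √3 * (p 2 * rotv p q 0 - p 0 * rotv p q 2)) / 2 := rfl
  have f2 : rotv p (rotv p q) 2 = (-(rotv p q 2) - 3 * lor p (rotv p q) * p 2 +
    √3 * (p 0 * rotv p q 1 - p 1 * rotv p q 0)) / 2 := rfl
  rw [h1] at f0 f1 f2
  fin_cases i
  · show q 0 + rotv p q 0 + rotv p (rotv p q) 0 = -(3 * lor p q * p 0)
    rw [f0, e0, e1, e2, e]
    generalize √3 = s at *
    linear_combination (3 / 4) * q 0 * hp + (1 / 4) *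
      (-(p 1 * (p 0 * q 1 - p 1 * q 0) - p 2 * (p 2 * q 0 - p 0 * q 2))) * hs
  · show q 1 + rotv p q 1 + rotv p (rotv p q) 1 = -(3 * lor p q * p 1)
    rw [f1, e0, e1, e2, e]
    generalize √3 = s at *
    linear_combination (3 / 4) * q 1 * hp + (1 / 4) *
      (p 2 * (-(p 1 * q 2 - p 2 * q 1)) - p 0 * (p 0 * q 1 - p 1 * q 0)) * hs
  · show q 2 + rotv p q 2 + rotv p (rotv p q) 2 = -(3 * lor p q * p 2)
    rw [f2, e0, e1, e2, e]
    generalize √3 = s at *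
    linear_combination (3 / 4) * q 2 * hp + (1 / 4) *
      (p 0 * (p 2 * q 0 - p 0 * q 2) - p 1 * (-(p 1 * q 2 - p 2 * q 1))) * hs

/-- the rotation by a third of a full turn about `P` -/
noncomputable def rot (P Q : Hyp 2) : Hyp 2 :=
  ⟨rotv P.1 Q.1, nrm_rotv P.1 Q.1 (nrmP P) (nrmP Q),
    sheet P _ (nrm_rotv P.1 Q.1 (nrmP P) (nrmP Q)) (by
      rw [lor_rotv P.1 Q.1 (nrmP P)]
      linarith [one_le P Q])⟩

theorem lor_rot (P Q : Hyp 2) : lor P.1 (rot P Q).1 = lor P.1 Q.1 := lor_rotv P.1 Q.1 (nrmP P)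

theorem rot_sum (P Q : Hyp 2) (i : Fin 3) :
    Q.1 i + (rot P Q).1 i + (rot P (rot P Q)).1 i = -(3 * lor P.1 Q.1 * P.1 i) :=
  sum_rotv P.1 Q.1 (nrmP P) i

theorem rot_rot_rot (P Q : Hyp 2) : rot P (rot P (rot P Q)) = Q := by
  apply Subtype.ext
  funext i
  have h1 := rot_sum P Q i
  have h2 := rot_sum P (rot P Q) i
  rw [lor_rot] at h2
  linarith

theorem dir_rot (P Q : Hyp 2) : dir P Q + dir P (rot P Q) + dir P (rot P (rot P Q)) = 0 := by
  funext i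
  have h1 : hdist P (rot P Q) = hdist P Q := hdist_congr (lor_rot P Q)
  have h2 : hdist P (rot P (rot P Q)) = hdist P Q :=
    (hdist_congr (lor_rot P (rot P Q))).trans h1
  show (Q.1 i - cosh (hdist P Q) * P.1 i) / sinh (hdist P Q) +
    ((rot P Q).1 i - cosh (hdist P (rot P Q)) * P.1 i) / sinh (hdist P (rot P Q)) +
    ((rot P (rot P Q)).1 i - cosh (hdist P (rot P (rot P Q))) * P.1 i) /
      sinh (hdist P (rot P (rot P Q))) = 0
  rw [h2, h1, cosh_hdist, ← add_div, ← add_div]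
  have h3 := rot_sum P Q i
  have h4 : Q.1 i - -lor P.1 Q.1 * P.1 i + ((rot P Q).1 i - -lor P.1 Q.1 * P.1 i) +
      ((rot P (rot P Q)).1 i - -lor P.1 Q.1 * P.1 i) = 0 := by linarith
  rw [h4, zero_div]

/-! ## The configuration -/

/-- the point with integer coordinates `t, x, y` -/
noncomputable def emb (t x y : ℤ) : Fin 3 → ℝ := ![(t : ℝ), 4 * x - 2 * y, 2 * √3 * y]

/-- the integral form of the Lorentz form -/
def bb (x y x' y' : ℤ) : ℤ := 2 * x * x' - x * y' - x' * y + 2 * y * y'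

theorem lor_emb (t x y t' x' y' : ℤ) :
    lor (emb t x y) (emb t' x' y') = ((-(t * t') + 8 * bb x y x' y' : ℤ) : ℝ) := by
  rw [lor2]
  have hs := s3
  simp only [emb, Matrix.cons_val_zero, Matrix.cons_val_one, Matrix.cons_val, bb]
  push_cast
  generalize √3 = s at *
  linear_combination 4 * (y : ℝ) * y' * hs

/-- the first part of the configuration -/
def ConfA : Set (Hyp 2) :=
  {P | ∃ t x y : ℤ, P.1 = emb t x y ∧ 3 ∣ t - 1 ∧ 3 ∣ x + y ∧ t % 4 = 1 ∧ y % 2 = 0}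

/-- the second part of the configuration -/
def ConfB : Set (Hyp 2) :=
  {P | ∃ t x y : ℤ, P.1 = emb t x y ∧ 3 ∣ t - 1 ∧ 3 ∣ x + y ∧ t % 4 = 3 ∧ x % 3 = 1}

/-- the configuration -/
def Conf : Set (Hyp 2) := ConfA ∪ ConfB

theorem emb_norm {P : Hyp 2} {t x y : ℤ} (h : P.1 = emb t x y) :
    t * t = 1 + 16 * (x * x - x * y + y * y) ∧ 0 < t := by
  have h1 := P.2.1
  have h2 := P.2.2
  rw [h] at h1 h2
  rw [lor_emb] at h1
  have h3 : (-(t * t) + 8 * bb x y x y : ℤ) = -1 := by exact_mod_cast h1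
  have h4 : (0 : ℝ) < t := h2
  refine ⟨?_, by exact_mod_cast h4⟩
  unfold bb at h3
  linarith

theorem conf_data {P : Hyp 2} (h : P ∈ Conf) :
    ∃ t x y : ℤ, P.1 = emb t x y ∧ 3 ∣ t - 1 ∧ 3 ∣ x + y ∧ t % 2 = 1 := by
  rcases h with ⟨t, x, y, h1, h2, h3, h4, _⟩ | ⟨t, x, y, h1, h2, h3, h4, _⟩
  · exact ⟨t, x, y, h1, h2, h3, by omega⟩
  · exact ⟨t, x, y, h1, h2, h3, by omega⟩

theorem sig_mem {P Q : Hyp 2} (hP : P ∈ Conf) (hQ : Q ∈ ConfA) : sig P Q ∈ ConfA := by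
  obtain ⟨t', x', y', hPe, k1, k2, k3⟩ := conf_data hP
  obtain ⟨t, x, y, hQe, h1, h2, h3, h4⟩ := hQ
  refine ⟨-t - 2 * (-(t' * t) + 8 * bb x' y' x y) * t',
    -x - 2 * (-(t' * t) + 8 * bb x' y' x y) * x',
    -y - 2 * (-(t' * t) + 8 * bb x' y' x y) * y', ?_, ?_, ?_, ?_, ?_⟩
  · show (fun i => -(Q.1 i) - 2 * lor P.1 Q.1 * P.1 i) = _
    rw [hPe, hQe, lor_emb]
    funext i
    fin_cases i
    · simp only [emb]
      push_cast
      ring
    · simp only [emb]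
      push_cast
      ring
    · simp only [emb]
      push_cast
      ring
  · obtain ⟨a, ha⟩ := h1
    obtain ⟨a', ha'⟩ := k1
    obtain ⟨s, hs⟩ := h2
    obtain ⟨s', hs'⟩ := k2
    have e1 : t = 3 * a + 1 := by linarith
    have e2 : t' = 3 * a' + 1 := by linarith
    have e3 : y = 3 * s - x := by linarith
    have e4 : y' = 3 * s' - x' := by linarith
    subst e1 e2 e3 e4
    unfold bb
    refine ⟨-a + 2 * a' + 2 * (a + a' + 3 * a * a') * (3 * a' + 1) -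
      16 * (2 * x * x' - 3 * x * s' - 3 * x' * s + 6 * s * s') * (3 * a' + 1), ?_⟩
    ring
  · obtain ⟨s, hs⟩ := h2
    obtain ⟨s', hs'⟩ := k2
    refine ⟨-s - 2 * (-(t' * t) + 8 * bb x' y' x y) * s', ?_⟩
    linear_combination (-1) * hs - 2 * (-(t' * t) + 8 * bb x' y' x y) * hs'
  · generalize bb x' y' x y = b
    obtain ⟨m, hm⟩ : ∃ m, t = 4 * m + 1 := ⟨t / 4, by omega⟩
    obtain ⟨k, hk⟩ : ∃ k, t' = 2 * k + 1 := ⟨t' / 2, by omega⟩
    have : -t - 2 * (-(t' * t) + 8 * b) * t' =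
        1 + 4 * (m + (8 * m + 2) * (k * k + k) - 4 * b * t') := by
      subst hm hk
      ring
    omega
  · generalize (-(t' * t) + 8 * bb x' y' x y) = b
    have : -y - 2 * b * y' = -y + 2 * (-(b * y')) := by ring
    omega

theorem rot_mem {P Q : Hyp 2} (hP : P ∈ Conf) (hQ : Q ∈ ConfB) : rot P Q ∈ ConfB := by
  obtain ⟨t', x', y', hPe, k1, k2, k3⟩ := conf_data hP
  obtain ⟨t, x, y, hQe, h1, h2, h3, h4⟩ := hQ
  obtain ⟨hn, _⟩ := emb_norm hPe
  obtain ⟨k, hk⟩ : ∃ k, t' = 2 * k + 1 := ⟨t' / 2, by omega⟩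
  refine ⟨t + 24 * t * (x' * x' - x' * y' + y' * y') - 12 * bb x' y' x y * t' -
      12 * (x' * y - y' * x),
    x * k + x' * t * (3 * k + 1) - 12 * bb x' y' x y * x' + (y' * t - t' * y),
    -(y * (k + 1)) + y' * t * (3 * k + 2) - 12 * bb x' y' x y * y' + (t' * x - x' * t),
    ?_, ?_, ?_, ?_, ?_⟩
  · show rotv P.1 Q.1 = _
    have hk' : (t' : ℝ) = 2 * k + 1 := by exact_mod_cast hk
    have hn' : (t' : ℝ) * t' = 1 + 16 * (x' * x' - x' * y' + y' * y') := by exact_mod_cast hn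
    have hs := s3
    funext i
    fin_cases i
    · show (-(Q.1 0) - 3 * lor P.1 Q.1 * P.1 0 +
        √3 * (-(P.1 1 * Q.1 2 - P.1 2 * Q.1 1))) / 2 = _
      rw [hPe, hQe, lor_emb]
      simp only [emb, bb]
      push_cast
      generalize √3 = s at *
      linear_combination (3 / 2) * (t : ℝ) * hn' - 4 * ((x' : ℝ) * y - y' * x) * hs
    · show (-(Q.1 1) - 3 * lor P.1 Q.1 * P.1 1 +
        √3 * (P.1 2 * Q.1 0 - P.1 0 * Q.1 2)) / 2 = _
      rw [hPe, hQe, lor_emb]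
      simp only [emb, bb]
      push_cast
      rw [hk']
      generalize √3 = s at *
      linear_combination ((y' : ℝ) * t - (2 * k + 1) * y) * hs
    · show (-(Q.1 2) - 3 * lor P.1 Q.1 * P.1 2 +
        √3 * (P.1 0 * Q.1 1 - P.1 1 * Q.1 0)) / 2 = _
      rw [hPe, hQe, lor_emb]
      simp only [emb, bb]
      push_cast
      rw [hk']
      generalize √3 = s at *
      ring
  · obtain ⟨a, ha⟩ := h1
    refine ⟨a + 8 * t * (x' * x' - x' * y' + y' * y') - 4 * bb x' y' x y * t' -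
      4 * (x' * y - y' * x), ?_⟩
    linear_combination ha
  · obtain ⟨a, ha⟩ := h1
    obtain ⟨κ, hκ⟩ : ∃ κ, k = 3 * κ := by
      have : 3 ∣ k := by omega
      exact this
    obtain ⟨s, hs⟩ := h2
    obtain ⟨s', hs'⟩ := k2
    have e1 : t = 3 * a + 1 := by linarith
    have e3 : y = 3 * s - x := by linarith
    have e4 : y' = 3 * s' - x' := by linarith
    generalize bb x' y' x y = b
    subst hk hκ e1 e3 e4
    refine ⟨(κ * x + x' * (9 * a * κ + a + 3 * κ) - 4 * b * x' + (3 * s' * a + s' - a * x') +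
      (-6 * κ * s + 2 * κ * x - s)) + (x - x' + (-3 * κ * s - s + κ * x) +
      s' * (27 * a * κ + 6 * a + 9 * κ + 2) - x' * (9 * a * κ + 2 * a + 3 * κ) -
      4 * b * (3 * s' - x') + 2 * κ * x - a * x'), ?_⟩
    ring
  · generalize bb x' y' x y = b
    generalize (x' * x' - x' * y' + y' * y') = N
    have : t + 24 * t * N - 12 * b * t' - 12 * (x' * y - y' * x) =
        t + 4 * (6 * t * N - 3 * b * t' - 3 * (x' * y - y' * x)) := by ring
    omega
  · obtain ⟨a, ha⟩ := h1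
    obtain ⟨κ, hκ⟩ : ∃ κ, k = 3 * κ := by
      have : 3 ∣ k := by omega
      exact this
    obtain ⟨s, hs⟩ := h2
    obtain ⟨s', hs'⟩ := k2
    have e1 : t = 3 * a + 1 := by linarith
    have e3 : y = 3 * s - x := by linarith
    have e4 : y' = 3 * s' - x' := by linarith
    generalize bb x' y' x y = b
    have key : x * k + x' * t * (3 * k + 1) - 12 * b * x' + (y' * t - t' * y) =
        x + 3 * (κ * x + x' * (9 * a * κ + a + 3 * κ) - 4 * b * x' +
        (3 * s' * a + s' - a * x') + (-6 * κ * s + 2 * κ * x - s)) := by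
      subst hk hκ e1 e3 e4
      ring
    omega

theorem conf_disj {Q : Hyp 2} (hA : Q ∈ ConfA) (hB : Q ∈ ConfB) : False := by
  obtain ⟨t, x, y, h, _, _, h1, _⟩ := hA
  obtain ⟨t', x', y', h', _, _, h1', _⟩ := hB
  have h2 : (t : ℝ) = t' := by
    have := congrFun (h.symm.trans h') 0
    exact this
  have h3 : t = t' := by exact_mod_cast h2
  omega

theorem conf_discrete : IsDiscreteConf Conf := by
  intro P r
  -- the bound on the first coordinate
  have hb : ∀ Q : Hyp 2, hdist P Q ≤ r → Q.1 0 ≤ 2 * cosh r * P.1 0 := by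
    intro Q hQ
    have hK : -(lor P.1 Q.1) ≤ cosh r := by
      rw [← cosh_hdist]
      have h0 : 0 ≤ hdist P Q := arcosh_nonneg (one_le P Q)
      rw [cosh_le_cosh, abs_of_nonneg h0, abs_of_nonneg (h0.trans hQ)]
      exact hQ
    have hK1 : 1 ≤ cosh r := one_le_cosh r
    rw [lor2] at hK
    have h1 := nrmP P
    have h2 := nrmP Q
    have h3 := P.2.2
    have h4 := Q.2.2
    generalize cosh r = K at *
    generalize P.1 0 = p0 at *
    generalize P.1 1 = p1 at *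
    generalize P.1 2 = p2 at *
    generalize Q.1 0 = q0 at *
    generalize Q.1 1 = q1 at *
    generalize Q.1 2 = q2 at *
    have hp1 : 1 ≤ p0 * p0 := by nlinarith [sq_nonneg p1, sq_nonneg p2]
    by_cases hc : p0 * q0 < K
    · have h5 : p0 * p0 * q0 ≤ K * p0 := by nlinarith
      nlinarith
    · have hc' := not_lt.mp hc
      have h6 : p0 * q0 - K ≤ p1 * q1 + p2 * q2 := by linarith
      have h7 : (p0 * q0 - K) ^ 2 ≤ (p1 * q1 + p2 * q2) ^ 2 :=
        pow_le_pow_left₀ (by linarith) h6 2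
      have h8 : (p1 * q1 + p2 * q2) ^ 2 ≤ (p1 * p1 + p2 * p2) * (q1 * q1 + q2 * q2) := by
        nlinarith [sq_nonneg (p1 * q2 - p2 * q1)]
      have e1 : p1 * p1 + p2 * p2 = p0 * p0 - 1 := by linarith
      have e2 : q1 * q1 + q2 * q2 = q0 * q0 - 1 := by linarith
      rw [e1, e2] at h8
      have h9 : q0 * q0 ≤ 2 * K * p0 * q0 := by nlinarith
      have h10 : q0 * q0 ≤ (2 * K * p0) * q0 := h9
      exact le_of_mul_le_mul_right h10 h4
  obtain ⟨N, hN⟩ := exists_nat_ge (2 * cosh r * P.1 0)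
  have hfin : ((fun v : ℤ × ℤ × ℤ => emb v.1 v.2.1 v.2.2) ''
      (Set.Icc (-N : ℤ) N ×ˢ Set.Icc (-N : ℤ) N ×ˢ Set.Icc (-N : ℤ) N)).Finite :=
    ((Set.finite_Icc _ _).prod ((Set.finite_Icc _ _).prod (Set.finite_Icc _ _))).image _
  refine (hfin.preimage (f := fun Q : Hyp 2 => Q.1)
    (fun _ _ _ _ h => Subtype.ext h)).subset ?_
  rintro Q ⟨hQ, hQr⟩
  obtain ⟨t, x, y, hQe, _⟩ := conf_data hQ
  obtain ⟨hn, ht⟩ := emb_norm hQe
  have h1 := hb Q hQr
  have h2 : (t : ℝ) ≤ N := by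
    have : Q.1 0 = t := by rw [hQe]; rfl
    rw [← this]
    exact h1.trans hN
  have h3 : t ≤ N := by exact_mod_cast h2
  have hx : x * x ≤ t * t := by nlinarith [sq_nonneg (x - 2 * y), sq_nonneg x]
  have hy : y * y ≤ t * t := by nlinarith [sq_nonneg (2 * x - y), sq_nonneg y]
  have hx' := abs_le_of_sq_le_sq' (a := x) (b := t) (by nlinarith) ht.le
  have hy' := abs_le_of_sq_le_sq' (a := y) (b := t) (by nlinarith) ht.le
  refine ⟨(t, x, y), ⟨⟨by linarith, h3⟩, ⟨by linarith, by linarith⟩, ⟨by linarith, by linarith⟩⟩,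
    hQe.symm⟩

theorem conf_balanced : IsBalanced Conf := by
  intro P hP d hd
  have hset : {Q | Q ∈ Conf ∧ hdist P Q = d} =
      {Q | Q ∈ ConfA ∧ hdist P Q = d} ∪ {Q | Q ∈ ConfB ∧ hdist P Q = d} := by
    ext Q
    constructor
    · rintro ⟨h | h, h'⟩
      · exact Or.inl ⟨h, h'⟩
      · exact Or.inr ⟨h, h'⟩
    · rintro (⟨h, h'⟩ | ⟨h, h'⟩)
      · exact ⟨Or.inl h, h'⟩
      · exact ⟨Or.inr h, h'⟩
  have hfin : {Q | Q ∈ Conf ∧ hdist P Q = d}.Finite :=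
    (conf_discrete P d).subset (fun Q hQ => ⟨hQ.1, hQ.2.le⟩)
  have hfA : {Q | Q ∈ ConfA ∧ hdist P Q = d}.Finite :=
    hfin.subset (fun Q hQ => ⟨Or.inl hQ.1, hQ.2⟩)
  have hfB : {Q | Q ∈ ConfB ∧ hdist P Q = d}.Finite :=
    hfin.subset (fun Q hQ => ⟨Or.inr hQ.1, hQ.2⟩)
  have hdisj : Disjoint {Q | Q ∈ ConfA ∧ hdist P Q = d} {Q | Q ∈ ConfB ∧ hdist P Q = d} := by
    rw [Set.disjoint_left]
    rintro Q ⟨h1, _⟩ ⟨h2, _⟩
    exact conf_disj h1 h2
  rw [hset, finsum_mem_union hdisj hfA hfB]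
  -- the part A
  have hmapA : Set.MapsTo (sig P) {Q | Q ∈ ConfA ∧ hdist P Q = d}
      {Q | Q ∈ ConfA ∧ hdist P Q = d} := by
    rintro Q ⟨h1, h2⟩
    exact ⟨sig_mem hP h1, (hdist_congr (lor_sig P Q)).trans h2⟩
  have hbijA : Set.BijOn (sig P) {Q | Q ∈ ConfA ∧ hdist P Q = d}
      {Q | Q ∈ ConfA ∧ hdist P Q = d} := by
    refine ⟨hmapA, ?_, ?_⟩
    · intro Q _ Q' _ h
      rw [← sig_sig P Q, h, sig_sig]
    · intro Q hQ
      exact ⟨sig P Q, hmapA hQ, sig_sig P Q⟩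
  have hA : ∑ᶠ Q ∈ {Q | Q ∈ ConfA ∧ hdist P Q = d}, dir P Q = 0 := by
    have h1 := finsum_mem_eq_of_bijOn (f := fun Q => dir P Q) (g := fun Q => -dir P Q)
      (sig P) hbijA (fun Q _ => by rw [dir_sig, neg_neg])
    have h2 : ∑ᶠ Q ∈ {Q | Q ∈ ConfA ∧ hdist P Q = d}, -dir P Q =
        -∑ᶠ Q ∈ {Q | Q ∈ ConfA ∧ hdist P Q = d}, dir P Q := by
      exact finsum_mem_neg_distrib _ hfA
    rw [h2] at h1
    exact self_eq_neg.mp h1
  -- the part B
  have hmapB : Set.MapsTo (rot P) {Q | Q ∈ ConfB ∧ hdist P Q = d}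
      {Q | Q ∈ ConfB ∧ hdist P Q = d} := by
    rintro Q ⟨h1, h2⟩
    exact ⟨rot_mem hP h1, (hdist_congr (lor_rot P Q)).trans h2⟩
  have hbijB : Set.BijOn (rot P) {Q | Q ∈ ConfB ∧ hdist P Q = d}
      {Q | Q ∈ ConfB ∧ hdist P Q = d} := by
    refine ⟨hmapB, ?_, ?_⟩
    · intro Q _ Q' _ h
      rw [← rot_rot_rot P Q, h, rot_rot_rot]
    · intro Q hQ
      exact ⟨rot P (rot P Q), hmapB (hmapB hQ), rot_rot_rot P Q⟩
  have hB : ∑ᶠ Q ∈ {Q | Q ∈ ConfB ∧ hdist P Q = d}, dir P Q = 0 := by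
    have h1 := finsum_mem_eq_of_bijOn (f := fun Q => dir P (rot P Q)) (g := fun Q => dir P Q)
      (rot P) hbijB (fun Q _ => rfl)
    have h2 := finsum_mem_eq_of_bijOn (f := fun Q => dir P (rot P (rot P Q)))
      (g := fun Q => dir P (rot P Q)) (rot P) hbijB (fun Q _ => rfl)
    have h3 : ∑ᶠ Q ∈ {Q | Q ∈ ConfB ∧ hdist P Q = d},
        (dir P Q + dir P (rot P Q) + dir P (rot P (rot P Q))) = 0 := by
      have : ∀ Q, dir P Q + dir P (rot P Q) + dir P (rot P (rot P Q)) = 0 := dir_rot P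
      simp only [this]
      simp
    rw [finsum_mem_add_distrib hfB, finsum_mem_add_distrib hfB, h2, h1] at h3
    funext i
    have h4 := congrFun h3 i
    simp only [Pi.add_apply, Pi.zero_apply] at h4 ⊢
    linarith
  rw [hA, hB, add_zero]

/-! ## Rigidity at the point `(1, 0, 0)` -/

/-- a point with given integer coordinates -/
noncomputable def pt (t x y : ℤ) (h : t * t = 1 + 16 * (x * x - x * y + y * y)) (ht : 0 < t) :
    Hyp 2 :=
  ⟨emb t x y, by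
    rw [lor_emb]
    have : (-(t * t) + 8 * bb x y x y : ℤ) = -1 := by
      unfold bb
      linarith
    exact_mod_cast this, by
    show (0 : ℝ) < t
    exact_mod_cast ht⟩

/-- the base point -/
noncomputable def P0 : Hyp 2 := pt 1 0 0 (by norm_num) (by norm_num)
/-- the fixed neighbour -/
noncomputable def Q1 : Hyp 2 := pt 7 1 2 (by norm_num) (by norm_num)
/-- a neighbour -/
noncomputable def Q2 : Hyp 2 := pt 7 1 (-1) (by norm_num) (by norm_num)
/-- a neighbour -/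
noncomputable def Q3 : Hyp 2 := pt 7 (-2) (-1) (by norm_num) (by norm_num)
/-- a point of the other shell -/
noncomputable def R1 : Hyp 2 := pt 25 7 2 (by norm_num) (by norm_num)

theorem P0_mem : P0 ∈ Conf := Or.inl ⟨1, 0, 0, rfl, by norm_num, by norm_num, by norm_num,
  by norm_num⟩

theorem Q1_mem : Q1 ∈ Conf := Or.inr ⟨7, 1, 2, rfl, by norm_num, by norm_num, by norm_num,
  by norm_num⟩

theorem Q2_mem : Q2 ∈ Conf := Or.inr ⟨7, 1, -1, rfl, by norm_num, by norm_num, by norm_num,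
  by norm_num⟩

theorem Q3_mem : Q3 ∈ Conf := Or.inr ⟨7, -2, -1, rfl, by norm_num, by norm_num, by norm_num,
  by norm_num⟩

theorem R1_mem : R1 ∈ Conf := Or.inl ⟨25, 7, 2, rfl, by norm_num, by norm_num, by norm_num,
  by norm_num⟩

theorem lor_P0 {Q : Hyp 2} {t x y : ℤ} (h : Q.1 = emb t x y) : lor P0.1 Q.1 = -(t : ℝ) := by
  show lor (emb 1 0 0) Q.1 = _
  rw [h, lor_emb]
  unfold bb
  push_cast
  ring

theorem shell7 {Q : Hyp 2} (hQ : Q ∈ Conf) (h : lor P0.1 Q.1 = -7) :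
    Q.1 = emb 7 1 2 ∨ Q.1 = emb 7 1 (-1) ∨ Q.1 = emb 7 (-2) (-1) := by
  have key : ∀ t x y : ℤ, Q.1 = emb t x y → t = 7 ∧ x * x - x * y + y * y = 3 := by
    intro t x y hQe
    rw [lor_P0 hQe] at h
    have ht : t = 7 := by
      have : (t : ℝ) = 7 := by linarith
      exact_mod_cast this
    obtain ⟨hn, _⟩ := emb_norm hQe
    rw [ht] at hn
    exact ⟨ht, by linarith⟩
  rcases hQ with ⟨t, x, y, hQe, _, _, h4, _⟩ | ⟨t, x, y, hQe, _, _, _, h5⟩
  · obtain ⟨ht, _⟩ := key t x y hQe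
    omega
  · obtain ⟨ht, hn⟩ := key t x y hQe
    subst ht
    have hx1 : -2 ≤ x := by nlinarith [sq_nonneg (x - 2 * y)]
    have hx2 : x ≤ 2 := by nlinarith [sq_nonneg (x - 2 * y)]
    have hy1 : -2 ≤ y := by nlinarith [sq_nonneg (2 * x - y)]
    have hy2 : y ≤ 2 := by nlinarith [sq_nonneg (2 * x - y)]
    rw [hQe]
    interval_cases x <;> interval_cases y <;> first | omega | simp_all

theorem shell25 {Q : Hyp 2} (hQ : Q ∈ Conf) (h : lor P0.1 Q.1 = -25) :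
    Q.1 = emb 25 7 2 ∨ Q.1 = emb 25 (-7) (-2) ∨ Q.1 = emb 25 5 (-2) ∨ Q.1 = emb 25 (-5) 2 := by
  have key : ∀ t x y : ℤ, Q.1 = emb t x y → t = 25 ∧ x * x - x * y + y * y = 39 := by
    intro t x y hQe
    rw [lor_P0 hQe] at h
    have ht : t = 25 := by
      have : (t : ℝ) = 25 := by linarith
      exact_mod_cast this
    obtain ⟨hn, _⟩ := emb_norm hQe
    rw [ht] at hn
    exact ⟨ht, by linarith⟩
  rcases hQ with ⟨t, x, y, hQe, _, _, _, h5⟩ | ⟨t, x, y, hQe, _, _, h4, _⟩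
  · obtain ⟨ht, hn⟩ := key t x y hQe
    subst ht
    have hx1 : -7 ≤ x := by nlinarith [sq_nonneg (x - 2 * y)]
    have hx2 : x ≤ 7 := by nlinarith [sq_nonneg (x - 2 * y)]
    have hy1 : -7 ≤ y := by nlinarith [sq_nonneg (2 * x - y)]
    have hy2 : y ≤ 7 := by nlinarith [sq_nonneg (2 * x - y)]
    rw [hQe]
    interval_cases y <;> first | omega | (interval_cases x <;> first | omega | simp_all)
  · obtain ⟨ht, _⟩ := key t x y hQe
    omega

theorem rigid (g : Hyp 2 ≃ Hyp 2) (hg : IsSymmetry Conf g) (h0 : g P0 = P0) : g Q1 = Q1 := by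
  have hmem : ∀ Q ∈ Conf, g Q ∈ Conf := by
    intro Q hQ
    have : g Q ∈ g '' Conf := ⟨Q, hQ, rfl⟩
    rw [hg.2] at this
    exact this
  have hl : ∀ P Q, lor (g P).1 (g Q).1 = lor P.1 Q.1 := fun P Q => hdist_eq (hg.1 P Q)
  have hl0 : ∀ Q, lor P0.1 (g Q).1 = lor P0.1 Q.1 := by
    intro Q
    have := hl P0 Q
    rw [h0] at this
    exact this
  have a1 := shell7 (hmem Q1 Q1_mem) (by rw [hl0]; exact (lor_P0 (Q := Q1) rfl).trans (by norm_num))
  have a2 := shell7 (hmem Q2 Q2_mem) (by rw [hl0]; exact (lor_P0 (Q := Q2) rfl).trans (by norm_num))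
  have a3 := shell7 (hmem Q3 Q3_mem) (by rw [hl0]; exact (lor_P0 (Q := Q3) rfl).trans (by norm_num))
  have b1 := shell25 (hmem R1 R1_mem)
    (by rw [hl0]; exact (lor_P0 (Q := R1) rfl).trans (by norm_num))
  have c1 : lor (g R1).1 (g Q1).1 = -127 := by
    rw [hl]
    show lor (emb 25 7 2) (emb 7 1 2) = -127
    rw [lor_emb]
    norm_num [bb]
  have c2 : lor (g R1).1 (g Q2).1 = -55 := by
    rw [hl]
    show lor (emb 25 7 2) (emb 7 1 (-1)) = -55
    rw [lor_emb]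
    norm_num [bb]
  have fin : (g Q1).1 = emb 7 1 2 := by
    rcases a1 with a1 | a1 | a1
    · exact a1
    · exfalso
      rcases b1 with b1 | b1 | b1 | b1 <;> rw [a1, b1, lor_emb] at c1 <;> norm_num [bb] at c1
    · exfalso
      rcases b1 with b1 | b1 | b1 | b1 <;> rw [a1, b1, lor_emb] at c1 <;> norm_num [bb] at c1
  exact Subtype.ext fin

/-- **Theorem.** In the hyperbolic plane there is a discrete configuration that is balanced but not
group-balanced. More strongly, it has a point `P` such that all symmetries that fix `P` fix a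
common second point `Q`. -/
theorem result :
    ∃ C : Set (Hyp 2), IsDiscreteConf C ∧ IsBalanced C ∧ ¬ IsGroupBalanced C ∧
      ∃ P ∈ C, ∃ Q, Q ≠ P ∧ ∀ g : Hyp 2 ≃ Hyp 2, IsSymmetry C g → g P = P → g Q = Q := by
  have hne : Q1 ≠ P0 := by
    intro h
    have h1 : Q1.1 0 = P0.1 0 := by rw [h]
    have h2 : ((7 : ℤ) : ℝ) = ((1 : ℤ) : ℝ) := h1
    norm_num at h2
  refine ⟨Conf, conf_discrete, conf_balanced, ?_, P0, P0_mem, Q1, hne, rigid⟩
  intro h
  obtain ⟨g, hg, hfix⟩ := h P0 P0_mem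
  have h1 : P0 ∈ {Q | g Q = Q} := by rw [hfix]; rfl
  have h2 : Q1 ∈ {Q | g Q = Q} := rigid g hg h1
  rw [hfix] at h2
  exact hne h2

end Pool.Agent.Results.MP_906af0_co.HyperbolicPlane
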